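import Pool.Agent.Helper68.VN.GoalsN

/-!
# MP_a41896_nt, project PG, packet BRU: the block Roth lemma in the variables `Fin n × σ`
-/

set_option autoImplicit false

open MvPolynomial

namespace Pool.Agent.Helper81.VN.BRU

open Pool.Agent.Helper92.Ru Pool.Agent.Helper42.SG Pool.Agent.Helper68.VN

lemma shift_rename {k : Type} [Field k] {τ υ : Type} (e : τ → υ) (ξ : υ → k)
    (p : MvPolynomial τ k) :
    shiftP ξ (rename e p) = rename e (shiftP (fun h => ξ (e h)) p) := by
  have h : (shiftP ξ).comp (rename e) =
      (rename e).comp (shiftP (fun h => ξ (e h))) := by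
    apply MvPolynomial.algHom_ext
    intro i
    simp [shiftP]
  exact DFunLike.congr_fun h p

lemma mem_support_rename {k : Type} [Field k] {τ υ : Type} (e : τ → υ)
    (he : Function.Injective e) (p : MvPolynomial τ k) (u : τ →₀ ℕ) :
    Finsupp.mapDomain e u ∈ (rename e p).support ↔ u ∈ p.support := by
  rw [mem_support_iff, mem_support_iff, coeff_rename_mapDomain _ he]

lemma PH_rename {k : Type} [Field k] [NumberField k] {τ υ : Type} (e : τ → υ)
    (he : Function.Injective e) (p : MvPolynomial τ k) : PH (rename e p) = PH p := by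
  classical
  obtain ⟨E, hE⟩ : ∃ E : p.support → (rename e p).support, ∀ u, (E u).1 = Finsupp.mapDomain e u.1 :=
    ⟨fun u => ⟨Finsupp.mapDomain e u.1, (mem_support_rename e he p u.1).mpr u.2⟩, fun _ => rfl⟩
  have hb : Function.Bijective E := by
    constructor
    · intro u v huv
      apply Subtype.ext
      apply Finsupp.mapDomain_injective he
      rw [← hE u, ← hE v, huv]
    · rintro ⟨v, hv⟩
      have hv' := hv
      rw [support_rename_of_injective he, Finset.mem_image] at hv'
      obtain ⟨u, hu, huv⟩ := hv'
      exact ⟨⟨u, hu⟩, Subtype.ext ((hE _).trans huv)⟩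
  have h := Height.mulHeight_comp_equiv (Equiv.ofBijective E hb)
    (fun v : (rename e p).support => coeff v.1 (rename e p))
  unfold PH
  rw [← h]
  congr 1
  funext u
  rw [Function.comp_apply, Equiv.ofBijective_apply, hE, coeff_rename_mapDomain _ he]

/-- the index is invariant under a renaming of the variables by an equivalence -/
lemma IndGe_rename {k : Type} [Field k] {τ υ : Type} [Fintype τ] [Fintype υ] (e : τ ≃ υ)
    (r : υ → ℕ) (ξ : υ → k) (θ : ℝ) (p : MvPolynomial τ k)
    (h : IndGe (fun h => r (e h)) (fun h => ξ (e h)) θ p) : IndGe r ξ θ (rename e p) := by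
  classical
  intro u hu
  rw [shift_rename, support_rename_of_injective e.injective, Finset.mem_image] at hu
  obtain ⟨w, hw, rfl⟩ := hu
  refine (h w hw).trans (le_of_eq ?_)
  rw [← Equiv.sum_comp e]
  apply Finset.sum_congr rfl
  intro i _
  rw [Finsupp.mapDomain_apply e.injective]

/-- the numbering of the variables -/
noncomputable def num (σ : Type) [Fintype σ] (n : ℕ) :
    Fin n × σ ≃ Fin (Fintype.card σ * n) :=
  (Equiv.prodCongr (Equiv.refl (Fin n)) (Fintype.equivFin σ)).trans
    (finProdFinEquiv.trans (finCongr (Nat.mul_comm n (Fintype.card σ))))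

lemma num_val (σ : Type) [Fintype σ] (n : ℕ) (h : Fin n × σ) :
    (num σ n h).val = (Fintype.equivFin σ h.2).val + Fintype.card σ * h.1.val := by
  simp [num, finProdFinEquiv]

lemma num_div (σ : Type) [Fintype σ] (n : ℕ) (h : Fin n × σ) :
    (num σ n h).val / Fintype.card σ = h.1.val := by
  rw [num_val]
  have h1 := (Fintype.equivFin σ h.2).isLt
  rw [Nat.add_mul_div_left _ _ (by omega), Nat.div_eq_of_lt h1, Nat.zero_add]

/-- **BRU**. -/
theorem t_BRU : Pool.Agent.Helper68.VN.BRU := by
  classical
  intro k _ _ σ _ _ n ι hι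
  obtain ⟨D, Kc, ω, hK, hω, hω1, hB⟩ :=
    Pool.Agent.Helper92.PN.blockRoth_uniform (Fintype.card σ) n k ι hι
  refine ⟨D, Kc, ω, hK, hω, hω1, ?_⟩
  intro d ξ H W p hd hdd hp hW hdeg hPH hInd
  have hd' : ∀ j : Fin n, (if h : j.val < n then d ⟨j.val, h⟩ else 1) = d j := fun j => by
    rw [dif_pos j.isLt]
  have hx : ∀ h : Fin n × σ, (if hh : (num σ n h).val < Fintype.card σ * n then
      ξ ((num σ n).symm ⟨(num σ n h).val, hh⟩).1 ((num σ n).symm ⟨(num σ n h).val, hh⟩).2 else 0) =
      ξ h.1 h.2 := fun h => by
    rw [dif_pos (num σ n h).isLt]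
    simp only [Fin.eta, Equiv.symm_apply_apply]
  obtain ⟨j, hj, f, hf, hfd, hfe, hfh⟩ := hB
    (fun j => if h : j < n then d ⟨j, h⟩ else 1)
    (fun a => if hh : a < Fintype.card σ * n then
      ξ ((num σ n).symm ⟨a, hh⟩).1 ((num σ n).symm ⟨a, hh⟩).2 else 0) H W
    (rename (num σ n) p) (by
      intro j hj
      simp only [dif_pos hj]
      exact hd _) (by
      intro j j' h1 h2
      simp only [dif_pos h2, dif_pos (h1.trans h2)]
      exact hdd _ _ h1) (by
      refine ⟨?_, hW, ?_, ?_, ?_⟩
      · intro h0
        apply hp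
        apply rename_injective _ (num σ n).injective
        rw [h0, map_zero]
      · intro h
        obtain ⟨g, rfl⟩ := (num σ n).surjective h
        rw [degreeOf_rename_of_injective (num σ n).injective]
        simp only [num_div]
        rw [hd']
        exact hdeg g
      · rw [PH_rename _ (num σ n).injective]
        exact hPH
      · apply IndGe_rename
        have h1 : (fun h : Fin n × σ => (if hh : ((num σ n h).val / Fintype.card σ) < n then
            d ⟨(num σ n h).val / Fintype.card σ, hh⟩ else 1)) = fun h => d h.1 := by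
          funext h
          simp only [num_div]
          exact hd' _
        have h2 : (fun h : Fin n × σ => (if hh : (num σ n h).val < Fintype.card σ * n then
            ξ ((num σ n).symm ⟨(num σ n h).val, hh⟩).1
              ((num σ n).symm ⟨(num σ n h).val, hh⟩).2 else 0)) = fun h => ξ h.1 h.2 :=
          funext hx
        rw [h1, h2]
        exact hInd)
  refine ⟨⟨j, hj⟩, rename (Fintype.equivFin σ).symm f, ?_, ?_, ?_, ?_⟩
  · intro h0
    apply hf
    apply rename_injective _ (Fintype.equivFin σ).symm.injective
    rw [h0, map_zero]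
  · intro i
    obtain ⟨g, rfl⟩ := (Fintype.equivFin σ).symm.surjective i
    rw [degreeOf_rename_of_injective (Fintype.equivFin σ).symm.injective]
    exact hfd g
  · rw [eval_rename, ← hfe]
    congr 1
    have h3 : (fun i : Fin (Fintype.card σ) =>
        (if hh : Fintype.card σ * j + i.val < Fintype.card σ * n then
          ξ ((num σ n).symm ⟨Fintype.card σ * j + i.val, hh⟩).1
            ((num σ n).symm ⟨Fintype.card σ * j + i.val, hh⟩).2 else 0)) =
        ξ ⟨j, hj⟩ ∘ (Fintype.equivFin σ).symm := by
      funext i
      have h4 := hx (⟨j, hj⟩, (Fintype.equivFin σ).symm i)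
      have h5 : (num σ n (⟨j, hj⟩, (Fintype.equivFin σ).symm i)).val =
          Fintype.card σ * j + i.val := by
        rw [num_val]
        simp [Nat.add_comm]
      simp only [h5] at h4
      exact h4
    rw [h3]
  · rw [PH_rename _ (Fintype.equivFin σ).symm.injective]
    have h6 := hfh
    simp only [dif_pos hj] at h6
    exact h6

end Pool.Agent.Helper81.VN.BRU
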